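import Mathlib

/-!
# Sequences of flips leave every bounded family

Let `X_0 ⇢ X_1 ⇢ X_2 ⇢ …` be a sequence of flips of projective `ℚ`-Gorenstein varieties with terminal
singularities, in the sense of the problem (without `ℚ`-factoriality), of any dimension. The discrepancies
of the divisors over `X_0` do not decrease, and in every step some discrepancy increases; so `X_i` and `X_j`
are different models of the function field. This does not exclude that `X_i` and `X_j` are isomorphic
varieties, or that all `X_i` are members of a bounded family. We exclude both, by comparing the stringy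
`E`-functions of Batyrev. For a terminal variety `X` with a log resolution `V` with the exceptional prime
divisors `D_j`, of discrepancies `a_j`, this is

`E_st(X; u, v) = ∑_J E(D_J°; u, v) ∏_{j ∈ J} (u v - 1) / ((u v) ^ (a_j + 1) - 1)`,

where `D_J° = ⋂_{j ∈ J} D_j \ ⋃_{j ∉ J} D_j` and `E` is the Hodge-Deligne polynomial. It does not depend on
`V` (Batyrev 1998), hence it is an invariant of the isomorphism class of `X` (also of the conjugates of `X`
under the automorphisms of `ℂ`). Let `st X q` be its value at `u = v = √q`, for real numbers `q > 1`.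

**Theorem.** (1) If `i < j` then `st X_j q < st X_i q` for all sufficiently large `q`. If `B` is a set of
varieties on which `st` has only finitely many values (for instance the set of the terminal members of a
bounded family: after a stratification of the base there are simultaneous log resolutions) then the number
of the indices `i` with `X_i` in `B` is at most the number of the values of `st` on `B`, for finite and for
infinite sequences of flips. So a sequence of flips all of whose members are in one bounded family is
finite, and its length is bounded by a number which depends only on the family.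

(2) In an infinite sequence of flips it is impossible that all `st X_i` are polynomials in a fixed
root `q^{1/s}`, of bounded degree, with integral coefficients which are bounded from below. So, for
instance, every sequence of flips is finite if its members have a bounded index and stringy `E`-functions
which are polynomials (in a fractional power of `q`) with nonnegative coefficients.

(3) The varieties `X_i` are pairwise not isomorphic. If only `N` isomorphism classes of varieties can be
reached from `X_0` by flips then every sequence of flips which starts at `X_0` has less than `N` steps. For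
instance, if `K + Δ ≡ 0` for a klt pair `(X_0, Δ)`, then the movable cone conjecture of Morrison and
Kawamata predicts that there are only finitely many isomorphism classes of small modifications of `X_0`; so
the movable cone conjecture for `(X_0, Δ)` implies the termination of all sequences of flips which start at
`X_0`.

The criterion of Shokurov for termination needs the lower semicontinuity of minimal log discrepancies,
besides the ascending chain condition, and the semicontinuity is open even for a single variety of
dimension four; here it is not needed.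

In the theorem the varieties, their flips and their stringy functions are abstract data (`Varieties`), and
the fact which is used is Batyrev's formula on a common log resolution of a variety and its flip, together
with the behaviour of the discrepancies (`Facts`). The proof: for real `q > 1` the factors
`(q - 1) / (q ^ (a + 1) - 1)` decrease in `a`, and the values of the Hodge-Deligne polynomials at
`u = v = √q` are positive for large `q`, as their leading coefficients count components.
-/

set_option autoImplicit false

open Polynomial Filter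

universe u

namespace Pool.Agent.Results.MP_a06248_ag.BoundedFamilies

/-- Numerical data of a log resolution with prime divisors `D 0, ..., D (r - 1)` with normal crossings. For a set
`J` of indices let `D_J° = ⋂_{j ∈ J} D j \ ⋃_{j ∉ J} D j`. Then `E J` is the Hodge-Deligne polynomial
`E(D_J°; u, v)` for `u = v = T`: it is zero if `D_J°` is empty, and its leading coefficient is the number of
irreducible components of maximal dimension otherwise. The set `D_{j}°` is not empty. -/
structure LogResolution (r : ℕ) where
  E : Finset (Fin r) → ℤ[X]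
  pos : ∀ J, E J = 0 ∨ 0 < (E J).leadingCoeff
  ne : ∀ j, E {j} ≠ 0

/-- Batyrev's formula: the value at `u = v = √q` of
`∑_J E(D_J°; u, v) ∏_{j ∈ J} (u v - 1) / ((u v) ^ (a j + 1) - 1)`. -/
noncomputable def LogResolution.value {r : ℕ} (R : LogResolution r) (a : Fin r → ℝ) (q : ℝ) : ℝ :=
  ∑ J : Finset (Fin r), aeval (√q) (R.E J) * ∏ j ∈ J, (q - 1) / (q ^ (a j + 1) - 1)

/-- Projective `ℚ`-Gorenstein varieties with terminal singularities, their flips, and their stringy
`E`-functions. -/
structure Varieties where
  /-- the projective `ℚ`-Gorenstein varieties with terminal singularities -/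
  Obj : Type u
  /-- `Flip X Y`: `Y` is the flip of the contraction of a `K`-negative extremal ray of `X` -/
  Flip : Obj → Obj → Prop
  /-- the stringy `E`-function of `X` at `u = v = √q`, as a function of `q` -/
  st : Obj → ℝ → ℝ

/-- The facts which are used. If `Y` is a flip of `X`, let `V` be a common log resolution, and `a j` and
`b j` the discrepancies with respect to `X` and `Y` of the prime divisors of `V` which are exceptional over `Y`: they
are nonnegative (`a j = 0` if the divisor is not exceptional over `X`; there are such `j` if the contraction of `X` is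
not small), `a j ≤ b j` for all `j`, and `a j < b j` for some `j` (see the problem file). The stringy
`E`-functions of `X` and `Y` are given by Batyrev's formula on `V`. -/
def Facts (T : Varieties.{u}) : Prop :=
  ∀ X Y, T.Flip X Y → ∃ (r : ℕ) (R : LogResolution r) (a b : Fin r → ℝ),
    (∀ j, 0 ≤ a j ∧ a j ≤ b j) ∧ (∃ j, a j < b j) ∧
      ∀ q : ℝ, 1 < q → T.st X q = R.value a q ∧ T.st Y q = R.value b q

lemma eventually_pos {P : ℤ[X]} (hP : 0 < P.leadingCoeff) :
    ∀ᶠ q : ℝ in atTop, 0 < aeval (√q) P := by
  have h1 : ∀ᶠ x : ℝ in atTop, 0 < (P.map (Int.castRingHom ℝ)).eval x := by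
    have hinj : Function.Injective (Int.castRingHom ℝ) := (Int.castRingHom ℝ).injective_int
    have hl : (P.map (Int.castRingHom ℝ)).leadingCoeff = (P.leadingCoeff : ℝ) :=
      leadingCoeff_map_of_injective hinj P
    have hl' : 0 < (P.map (Int.castRingHom ℝ)).leadingCoeff := by
      rw [hl]
      exact_mod_cast hP
    by_cases hd : 0 < (P.map (Int.castRingHom ℝ)).degree
    · exact (tendsto_atTop_of_leadingCoeff_nonneg _ hd hl'.le).eventually_gt_atTop 0
    · have h2 : (P.map (Int.castRingHom ℝ)).degree ≤ 0 := not_lt.1 hd
      have h3 := eq_C_of_degree_le_zero h2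
      refine Eventually.of_forall fun x => ?_
      rw [h3, eval_C]
      rw [h3, leadingCoeff_C] at hl'
      exact hl'
  have h2 := Real.tendsto_sqrt_atTop.eventually h1
  filter_upwards [h2] with q hq
  rwa [aeval_def, ← eval_map, algebraMap_int_eq] at *

lemma eventually_nonneg {r : ℕ} (R : LogResolution r) :
    ∀ᶠ q : ℝ in atTop, ∀ J, 0 ≤ aeval (√q) (R.E J) := by
  rw [eventually_all]
  intro J
  rcases R.pos J with h | h
  · refine Eventually.of_forall fun q => ?_
    rw [h, map_zero]
  · exact (eventually_pos h).mono fun q hq => hq.le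

section factor

variable {q a b : ℝ}

lemma pow_pos' (hq : 1 < q) (ha : 0 ≤ a) : 0 < q ^ (a + 1) - 1 := by
  have := Real.one_lt_rpow hq (by linarith : 0 < a + 1)
  linarith

lemma factor_le (hq : 1 < q) (ha : 0 ≤ a) (hab : a ≤ b) :
    (q - 1) / (q ^ (b + 1) - 1) ≤ (q - 1) / (q ^ (a + 1) - 1) := by
  have h1 := pow_pos' hq ha
  have h2 : q ^ (a + 1) ≤ q ^ (b + 1) :=
    Real.rpow_le_rpow_of_exponent_le hq.le (by linarith)
  exact div_le_div_of_nonneg_left (by linarith) h1 (by linarith)

lemma factor_lt (hq : 1 < q) (ha : 0 ≤ a) (hab : a < b) :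
    (q - 1) / (q ^ (b + 1) - 1) < (q - 1) / (q ^ (a + 1) - 1) := by
  have h1 := pow_pos' hq ha
  have h2 : q ^ (a + 1) < q ^ (b + 1) :=
    Real.rpow_lt_rpow_of_exponent_lt hq (by linarith)
  exact div_lt_div_of_pos_left (by linarith) h1 (by linarith)

end factor

/-- Larger discrepancies give a smaller stringy function. -/
lemma value_lt {r : ℕ} (R : LogResolution r) {a b : Fin r → ℝ} (h : ∀ j, 0 ≤ a j ∧ a j ≤ b j)
    (h' : ∃ j, a j < b j) : ∀ᶠ q : ℝ in atTop, R.value b q < R.value a q := by
  obtain ⟨j, hj⟩ := h'
  have hp : 0 < (R.E {j}).leadingCoeff := (R.pos {j}).resolve_left (R.ne j)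
  filter_upwards [eventually_nonneg R, eventually_pos hp, eventually_gt_atTop 1] with q h1 h2 hq
  refine Finset.sum_lt_sum (fun J _ => ?_) ⟨{j}, Finset.mem_univ _, ?_⟩
  · refine mul_le_mul_of_nonneg_left ?_ (h1 J)
    refine Finset.prod_le_prod (fun i _ => ?_) fun i _ => factor_le hq (h i).1 (h i).2
    have hb : 0 ≤ b i := (h i).1.trans (h i).2
    exact div_nonneg (by linarith) (pow_pos' hq hb).le
  · rw [Finset.prod_singleton, Finset.prod_singleton]
    exact mul_lt_mul_of_pos_left (factor_lt hq (h j).1 hj) h2

variable {T : Varieties.{u}}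

lemma flip_lt (hT : Facts T) {X Y : T.Obj} (h : T.Flip X Y) :
    ∀ᶠ q : ℝ in atTop, T.st Y q < T.st X q := by
  obtain ⟨r, R, a, b, h1, h2, h3⟩ := hT X Y h
  filter_upwards [value_lt R h1 h2, eventually_gt_atTop 1] with q h4 hq
  rw [(h3 q hq).1, (h3 q hq).2]
  exact h4

lemma seq_lt (hT : Facts T) {X : ℕ → T.Obj} {n i : ℕ} (h : ∀ m < n, T.Flip (X m) (X (m + 1)))
    (k : ℕ) (hk : i + k + 1 ≤ n) : ∀ᶠ q : ℝ in atTop, T.st (X (i + k + 1)) q < T.st (X i) q := by
  induction k with
  | zero => exact flip_lt hT (h i (by omega))
  | succ k ih =>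
    filter_upwards [ih (by omega), flip_lt hT (h (i + k + 1) (by omega))] with q h1 h2
    exact h2.trans h1

lemma seq_lt' (hT : Facts T) {X : ℕ → T.Obj} {n i j : ℕ} (h : ∀ m < n, T.Flip (X m) (X (m + 1)))
    (hij : i < j) (hj : j ≤ n) : ∀ᶠ q : ℝ in atTop, T.st (X j) q < T.st (X i) q := by
  obtain ⟨k, rfl⟩ := Nat.exists_eq_add_of_lt hij
  exact seq_lt hT h k hj

lemma seq_ne (hT : Facts T) {X : ℕ → T.Obj} {n i j : ℕ} (h : ∀ m < n, T.Flip (X m) (X (m + 1)))
    (hij : i < j) (hj : j ≤ n) : T.st (X i) ≠ T.st (X j) := by
  intro he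
  obtain ⟨q, hq⟩ := (seq_lt' hT h hij hj).exists
  rw [he] at hq
  exact lt_irrefl _ hq

/-- The order of the values at infinity is the lexicographic order of the coefficients. -/
lemma coeff_lt {r : ℝ} (hr : 0 < r) {P Q : ℤ[X]}
    (h : ∀ᶠ q : ℝ in atTop, aeval (q ^ r) P < aeval (q ^ r) Q) :
    ∃ d, (∀ m, d < m → P.coeff m = Q.coeff m) ∧ P.coeff d < Q.coeff d := by
  have ht : Tendsto (fun q : ℝ => (q ^ r) ^ 2) atTop atTop :=
    (tendsto_pow_atTop two_ne_zero).comp (tendsto_rpow_atTop hr)
  have hpos : 0 < (Q - P).leadingCoeff := by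
    by_contra hcon
    rcases (not_lt.1 hcon).lt_or_eq with h1 | h1
    · have h2 : 0 < (-(Q - P)).leadingCoeff := by
        rw [leadingCoeff_neg]
        omega
      have h3 := ht.eventually (eventually_pos h2)
      obtain ⟨q, h4, h5, h6⟩ := (h.and (h3.and (eventually_gt_atTop 0))).exists
      rw [Real.sqrt_sq (Real.rpow_nonneg h6.le r), map_neg, map_sub] at h5
      linarith
    · rw [leadingCoeff_eq_zero] at h1
      obtain ⟨q, hq⟩ := h.exists
      rw [sub_eq_zero.1 h1] at hq
      exact lt_irrefl _ hq
  refine ⟨(Q - P).natDegree, fun m hm => ?_, ?_⟩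
  · have h1 := coeff_eq_zero_of_natDegree_lt hm
    rw [coeff_sub] at h1
    omega
  · have h1 : 0 < (Q - P).coeff (Q - P).natDegree := hpos
    rw [coeff_sub] at h1
    omega

/-- There is no infinite sequence of flips with stringy Betti numbers bounded from below and bounded
denominators. -/
lemma no_seq (hT : Facts T) {X : ℕ → T.Obj} (h : ∀ m, T.Flip (X m) (X (m + 1))) {r : ℝ}
    (hr : 0 < r) (D : ℕ) (C : ℤ) :
    ¬ ∀ i, ∃ P : ℤ[X], P.natDegree ≤ D ∧ (∀ m, C ≤ P.coeff m) ∧
      ∀ q : ℝ, 1 < q → T.st (X i) q = aeval (q ^ r) P := by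
  intro hcon
  choose P hP hC hst using hcon
  let f : ℕ → Lex (Fin (D + 1) → ℕ) := fun i => toLex fun k => ((P i).coeff (D - k) - C).toNat
  have hf : ∀ i, f (i + 1) < f i := by
    intro i
    have h1 : ∀ᶠ q : ℝ in atTop, aeval (q ^ r) (P (i + 1)) < aeval (q ^ r) (P i) := by
      filter_upwards [flip_lt hT (h i), eventually_gt_atTop 1] with q h2 h3
      rwa [hst i q h3, hst (i + 1) q h3] at h2
    obtain ⟨d, h2, h3⟩ := coeff_lt hr h1
    have hd : d ≤ D := by
      by_contra hd
      have h4 : (P i).coeff d = 0 := coeff_eq_zero_of_natDegree_lt (by have := hP i; omega)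
      have h5 : (P (i + 1)).coeff d = 0 :=
        coeff_eq_zero_of_natDegree_lt (by have := hP (i + 1); omega)
      omega
    refine ⟨⟨D - d, by omega⟩, fun j hj => ?_, ?_⟩
    · have hj' : (j : ℕ) < D - d := hj
      change ((P (i + 1)).coeff (D - j) - C).toNat = ((P i).coeff (D - j) - C).toNat
      rw [h2 _ (by omega)]
    · change ((P (i + 1)).coeff (D - (D - d)) - C).toNat < ((P i).coeff (D - (D - d)) - C).toNat
      have h4 : D - (D - d) = d := by omega
      rw [h4]
      have h5 := hC (i + 1) d
      omega
  have hwf : WellFoundedLT (Lex (Fin (D + 1) → ℕ)) := inferInstance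
  exact (RelEmbedding.natGT f hf).not_wellFounded hwf.wf

/-- **Sequences of flips leave every bounded family.** See the explanations above. -/
theorem result {T : Varieties.{u}} (hT : Facts T) :
    (∀ (n : ℕ) (X : ℕ → T.Obj), (∀ m < n, T.Flip (X m) (X (m + 1))) →
      (∀ i j, i < j → j ≤ n → ∀ᶠ q : ℝ in atTop, T.st (X j) q < T.st (X i) q) ∧
      ∀ B : Set T.Obj, (T.st '' B).Finite →
        {i | i ≤ n ∧ X i ∈ B}.ncard ≤ (T.st '' B).ncard) ∧
    (∀ X : ℕ → T.Obj, (∀ m, T.Flip (X m) (X (m + 1))) →
      ∀ B : Set T.Obj, (T.st '' B).Finite →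
        {i | X i ∈ B}.Finite ∧ {i | X i ∈ B}.ncard ≤ (T.st '' B).ncard) ∧
    (∀ X : ℕ → T.Obj, (∀ m, T.Flip (X m) (X (m + 1))) → ∀ (r : ℝ), 0 < r → ∀ (D : ℕ) (C : ℤ),
      ∃ i, ¬ ∃ P : ℤ[X], P.natDegree ≤ D ∧ (∀ m, C ≤ P.coeff m) ∧
        ∀ q : ℝ, 1 < q → T.st (X i) q = aeval (q ^ r) P) ∧
    ∀ (iso : T.Obj → T.Obj → Prop), (∀ X Y, iso X Y → T.st X = T.st Y) →
      (∀ (n : ℕ) (X : ℕ → T.Obj), (∀ m < n, T.Flip (X m) (X (m + 1))) →
        ∀ i j, i < j → j ≤ n → ¬ iso (X i) (X j)) ∧
      ∀ (X₀ : T.Obj) (N : ℕ) (M : Fin N → T.Obj),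
        (∀ Y, Relation.ReflTransGen T.Flip X₀ Y → ∃ k, iso Y (M k)) →
        ∀ (n : ℕ) (X : ℕ → T.Obj), X 0 = X₀ → (∀ m < n, T.Flip (X m) (X (m + 1))) → n < N := by
  have key : ∀ (n : ℕ) (X : ℕ → T.Obj), (∀ m < n, T.Flip (X m) (X (m + 1))) →
      ∀ B : Set T.Obj, (T.st '' B).Finite →
        {i | i ≤ n ∧ X i ∈ B}.ncard ≤ (T.st '' B).ncard := by
    intro n X h B hB
    refine Set.ncard_le_ncard_of_injOn (fun i => T.st (X i)) (fun i hi => ⟨X i, hi.2, rfl⟩) ?_ hB
    intro i hi j hj hij
    by_contra hne
    rcases lt_or_gt_of_ne hne with h1 | h1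
    · exact seq_ne hT h h1 hj.1 hij
    · exact seq_ne hT h h1 hi.1 hij.symm
  refine ⟨fun n X h => ⟨fun i j hij hj => seq_lt' hT h hij hj, key n X h⟩, ?_,
    fun X h r hr D C => not_forall.1 (no_seq hT h hr D C), ?_⟩
  · intro X h B hB
    have hinj : Set.InjOn (fun i => T.st (X i)) {i | X i ∈ B} := by
      intro i hi j hj hij
      by_contra hne
      rcases lt_or_gt_of_ne hne with h1 | h1
      · exact seq_ne hT (n := j) (fun m _ => h m) h1 le_rfl hij
      · exact seq_ne hT (n := i) (fun m _ => h m) h1 le_rfl hij.symm
    have hm : Set.MapsTo (fun i => T.st (X i)) {i | X i ∈ B} (T.st '' B) :=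
      fun i hi => ⟨X i, hi, rfl⟩
    exact ⟨Set.Finite.of_injOn hm hinj hB, Set.ncard_le_ncard_of_injOn _ hm hinj hB⟩
  · intro iso hiso
    refine ⟨fun n X h i j hij hj hi => seq_ne hT h hij hj (hiso _ _ hi), ?_⟩
    intro X₀ N M hM n X h0 h
    have hr : ∀ i ≤ n, Relation.ReflTransGen T.Flip X₀ (X i) := by
      intro i
      induction i with
      | zero =>
        intro _
        rw [h0]
      | succ i ih =>
        intro hi
        exact (ih (by omega)).tail (h i (by omega))
    have hN : Nonempty (Fin N) := ⟨(hM _ (hr 0 (Nat.zero_le _))).choose⟩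
    choose! k hk using fun i (hi : i ≤ n) => hM _ (hr i hi)
    have hinj : Set.InjOn k (Set.Iic n) := by
      intro i hi j hj hij
      have h1 : T.st (X i) = T.st (X j) := by
        rw [hiso _ _ (hk i hi), hiso _ _ (hk j hj), hij]
      by_contra hne
      rcases lt_or_gt_of_ne hne with h2 | h2
      · exact seq_ne hT h h2 hj h1
      · exact seq_ne hT h h2 hi h1.symm
    have hc : (Finset.range (n + 1)).card ≤ (Finset.univ : Finset (Fin N)).card := by
      refine Finset.card_le_card_of_injOn k (fun i _ => Finset.mem_coe.2 (Finset.mem_univ _)) ?_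
      intro i hi j hj
      rw [Finset.coe_range, Set.mem_Iio] at hi hj
      exact hinj (Set.mem_Iic.2 (by omega)) (Set.mem_Iic.2 (by omega))
    rw [Finset.card_range, Finset.card_univ, Fintype.card_fin] at hc
    omega

end Pool.Agent.Results.MP_a06248_ag.BoundedFamilies
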