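import Pool.Agent.Helper10.FL.Base

/-!
# The dimensions of the exceptional loci in an infinite sequence of flips

Let `X_0 ⇢ X_1 ⇢ X_2 ⇢ …` be an infinite sequence of flips of projective `ℚ`-Gorenstein varieties of any dimension
`n` with terminal singularities, in the sense of the problem (without `ℚ`-factoriality). Let `E_i ⊂ X_i` be the
exceptional locus of the contraction `X_i → Z_i`, and `E'_i ⊂ X_{i+1}` the preimage of the image of `E_i` (the
exceptional locus of `X_{i+1} → Z_i` for all large `i`). Then for infinitely many `i`

`dim E'_i ≥ dim E_i` and `dim E'_i ≥ (n - 1) / 2`.

So there is no infinite sequence of flips in which `E'_i` always has a smaller dimension than `E_i`, as it is, for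
example, for the standard flips of smooth varieties (along linear spaces, `dim E_i > dim E'_i`): such sequences are
finite, in all dimensions. Nothing is supposed about the singularities besides the terminality. A proof of
termination has to exclude only the flips with `dim E'_i ≥ dim E_i`.

The proof. Suppose the contrary. By induction on `c` the loci `E_i` and `E'_i` have codimension more than `c` for all large
`i`: if this is so for `c` and `E'_i` has a component of codimension `c + 1` then the codimension of `E_i` is at least
`c + 1` as well, so that `dim E_i ≤ dim E'_i`, and `2 dim E'_i ≥ dim E_i + dim E'_i ≥ n - 1`, which is excluded. So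
the codimension of `E'_i` is more than `c + 1`. Then the rank of the group of the classes of the algebraic cycles of
codimension `c + 1` decreases if `E_i` has codimension `c + 1`.

In the theorem the varieties, their points, the divisors over them and the flips are abstract data
(`Varieties`), and the standard facts which are used are `Facts`; see `FlipsOfLowCodimension`. Only the facts on the
dimensions and on the classes of algebraic cycles are used.
-/

set_option autoImplicit false

universe u

open Pool.Agent.Helper10.FL

namespace Pool.Agent.Results.MP_a06248_ag.DimensionsOfExceptionalLoci

/-- **The dimensions of the exceptional loci.** In every infinite sequence of flips, for infinitely many `i` there is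
a point of `E' i` whose codimension is not larger than the codimensions of the points of `E i`, and is at most
`(n + 1) / 2`. -/
theorem result (T : Varieties.{u}) (hT : Facts T) (s : FlipSequence T) (N : ℕ) :
    ∃ i ≥ N, ∃ y ∈ s.E' i,
      (∀ x ∈ s.E i, T.codim (s.X (i + 1)) y ≤ T.codim (s.X i) x) ∧
        2 * T.codim (s.X (i + 1)) y ≤ T.n + 1 :=
  part_six hT s N

end Pool.Agent.Results.MP_a06248_ag.DimensionsOfExceptionalLoci
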