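import Pool.Agent.Helper10.FL.Base

/-!
# Flips in dimension at most six if the small discrepancies do not accumulate, without semicontinuity

Let `X_0 ⇢ X_1 ⇢ X_2 ⇢ …` be an infinite sequence of flips of projective `ℚ`-Gorenstein varieties of dimension
`n ≤ 6` with terminal singularities, in the sense of the problem (without `ℚ`-factoriality), and let `E_i ⊂ X_i` be
the exceptional locus of the contraction `X_i → Z_i`. The discrepancies `a(F, X_i)` of a divisor `F` do not decrease
with `i`. Suppose that none of these sequences has infinitely many different values less than one; for instance, let
the indices of the `X_i` be bounded (there is an `r ≥ 1` such that all `r K_{X_i}` are Cartier). It is not known in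
general whether this is so; it is a consequence of the ascending chain condition for the discrepancies of `F` over
the varieties `X_i`.

There are only finitely many divisors of discrepancy less than one over each `X_i`. Then for infinitely many `i` the
locus `E_i` meets the centre of one of them and does not contain it. In particular there is no infinite sequence if
moreover these centres are closed points for all `i`: every sequence of flips of varieties of dimension at most six
and of bounded index, which are Gorenstein outside finite sets of points, is finite. (A divisor of discrepancy less
than one has its centre in the set of the points where `K` is not Cartier.)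

The criterion of Shokurov deduces the termination from the ascending chain condition and the lower semicontinuity of
the minimal log discrepancies; the semicontinuity is open for `n ≥ 4`, even for bounded indices, and is not needed
here.

The proof: by `FlipsOfLowCodimension` the loci `E_i` meet such centres infinitely often. If `E_i` contains the centre of a
divisor then its discrepancy increases; so this happens only finitely often for the divisors of discrepancy less than
one, which come from the finitely many of these over one `X_i`.

In the theorem the varieties, their points, the divisors over them and the flips are abstract data
(`Varieties`), and the standard facts which are used are `Facts`; see `FlipsOfLowCodimension`.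
-/

set_option autoImplicit false

universe u

open Pool.Agent.Helper10.FL

namespace Pool.Agent.Results.MP_a06248_ag.FewSmallDiscrepancies

/-- Let `n ≤ 6`, let `X 0, X 1, X 2, …` be an infinite sequence of flips, and suppose that the discrepancy of every
divisor takes only finitely many values `< 1` over the `X i`. Then for infinitely many `i`, `E i` meets the centre of
a divisor with discrepancy `< 1` over `X i` and does not contain it. There is no such infinite sequence if the
centres of the exceptional divisors with discrepancy `< 1` over the `X i` are closed points. -/
theorem result (T : Varieties.{u}) (hT : Facts T) (hn : T.n ≤ 6) (s : FlipSequence T)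
    (few : ∀ F, {a : ℝ | a < 1 ∧ ∃ i, T.disc (s.X i) F = a}.Finite) :
    (∀ N : ℕ, ∃ i ≥ N,
      ∃ F, 2 ≤ T.codim (s.X i) (T.center (s.X i) F) ∧ T.disc (s.X i) F < 1 ∧
        T.center (s.X i) F ∉ s.E i ∧
        ∃ x ∈ s.E i, T.InClosure (s.X i) x (T.center (s.X i) F)) ∧
    ¬ ∀ i F, 2 ≤ T.codim (s.X i) (T.center (s.X i) F) → T.disc (s.X i) F < 1 →
      ∀ x, T.InClosure (s.X i) x (T.center (s.X i) F) → x = T.center (s.X i) F := by
  refine ⟨gen_five hT s hn few, fun hcl => ?_⟩
  obtain ⟨i, -, F, h1, h2, h3, x, hx, hx'⟩ := gen_five hT s hn few 0
  rw [hcl i F h1 h2 x hx'] at hx
  exact h3 hx

end Pool.Agent.Results.MP_a06248_ag.FewSmallDiscrepancies
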