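import Pool.Agent.Helper10.FL.Base

/-!
# Flips of low codimension, and termination in dimension at most six from discrepancies at least one

Let `X_0 ⇢ X_1 ⇢ X_2 ⇢ …` be an infinite sequence of flips of projective `ℚ`-Gorenstein varieties of
dimension `n` with terminal singularities, in the sense of the problem (without `ℚ`-factoriality): `X_{i+1}` is
the flip of a contraction `X_i → Z_i` with a target that is not `ℚ`-Gorenstein. Let `E_i ⊂ X_i` be the exceptional
locus of `X_i → Z_i`, and `E'_i ⊂ X_{i+1}` the preimage of the image of `E_i` (the exceptional locus of
`X_{i+1} → Z_i`, if `X_i → Z_i` is small). It is known that `E'_i` has codimension two only finitely often, as a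
divisor of discrepancy less than one disappears in such a flip, and that this gives the termination for `n ≤ 4`
(Kawamata, Matsuda and Matsuki). The divisors with discrepancy less than two are infinite in number, even without
the trivial ones, which are the blowing ups of subvarieties of codimension two: if `D` has discrepancy `a < 1` and
is a divisor on a resolution then the blowing up of every prime divisor of `D` has discrepancy `1 + a`. We show:

(1) Suppose that all exceptional divisors over `X_0` have discrepancy at least one, for instance let `X_0` have
terminal Gorenstein singularities, or let `X_0` be smooth. (The other `X_i` are arbitrary; they need not be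
Gorenstein.) Suppose also that the contractions `X_i → Z_i` are small; this is so if `X_0` is `ℚ`-factorial, for
instance smooth. Then `E_i` and `E'_i` have codimension at least four for all large `i`, in every dimension, and if
`n ≤ 6` then every sequence of flips which starts at `X_0` is finite.

(2) For `n ≤ 6` and arbitrary `X_0`: in every infinite sequence of flips the exceptional loci `E_i` meet,
for infinitely many `i`, the centre of one of the finitely many divisors of discrepancy less than one over
`X_i`.

(3) For all large `i`, `E_i` and `E'_i` have codimension at least three, and `X_i` and `X_{i+1}` are
regular at their points of codimension three. (So the codimension three components with generically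
singular, terminal transversal threefold singularities occur only finitely often; this uses the minimal
discrepancy `1 / r` of these singularities, and that there is no infinite increasing sequence of these
numbers.)

(4) Suppose that for all large `i` the exceptional locus `E_i` does not meet the centres of the divisors
with discrepancy `< k` over the singular locus of `X_i`, and, if `k ≥ 2`, that `X_{i+1}` is regular at the
points of `E'_i` of codimension `4, ..., k + 2`. Then `E_i` and `E'_i` have codimension at least `k + 3`
for all large `i`, and `n ≥ 2 k + 5`. (This implies (1) and (2), with `k = 1`. For large `k` it contains the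
termination of the sequences of flips of smooth varieties, in all dimensions.)

The criterion of Shokurov for termination needs the ascending chain condition and the lower
semicontinuity of minimal log discrepancies in dimension `n`, which are not known for `n ≥ 4`.

The proof. Only finitely many of the contractions `X_i → Z_i` are not small, as the rank of the group of the classes
of divisors decreases. By induction on `c ≤ k + 2` the exceptional loci have codimension at least `c` for large `i`.
The divisors of discrepancy `< c - 1` with centre of codimension at least `c`, not contained in the bad
locus of (4), are finitely many, by a log resolution; no new ones appear in a flip as the bad locus is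
disjoint from `E_i`, and one of them disappears if `E'_i` has a component of codimension `c`, namely its
blowing up. So the codimension of `E'_i` is at least `c + 1` for large `i`. Then the rank of the group of
the classes of the algebraic cycles of codimension `c` decreases if `E_i` has codimension at most `c`.
At the end `dim E_i + dim E'_i ≥ n - 1` is used.

In the theorem the varieties, their points, the divisors over them and the flips are abstract data
(`Varieties`), and the standard facts which are used are `Facts`; all of them are proved in the
literature for projective `ℚ`-Gorenstein terminal varieties (Kollár and Mori, Birational geometry of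
algebraic varieties, 2.29-2.31, 3.38, 5.18; Kawamata, Matsuda and Matsuki, 5-1-17; Markushevich 1996 and
Kawamata 1993 for the discrepancies of terminal threefold singularities). The varieties with one function
field `K` are considered, so that the divisors over them are the divisorial valuations of `K`.
-/

set_option autoImplicit false

universe u

open Pool.Agent.Helper10.FL

namespace Pool.Agent.Results.MP_a06248_ag.FlipsOfLowCodimension

/-- **Flips of low codimension.** Let `X 0, X 1, X 2, …` be infinite sequences of flips, with the
loci `E i` in `X i` and `E' i` in `X (i + 1)`.

(1) Suppose that the exceptional divisors over `X 0` have discrepancy at least one and that the contractions are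
small. Then `E i` and `E' i` have codimension at least four for all large `i`. There is no such infinite sequence if
`n ≤ 6`.

(2) If `n ≤ 6` then for infinitely many `i`, `E i` meets the centre of a divisor with discrepancy
`< 1` over `X i`.

(3) For all large `i` the points of `E i` and `E' i` have codimension at least three, and those of
codimension three are regular points of `X i` and `X (i + 1)`.

(4) Let `k` be a natural number and suppose that for all large `i`, `E i` is disjoint from the centres
of the divisors with discrepancy `< k` and with centre in the singular locus of `X i`, and `X (i + 1)`
is regular at the points of `E' i` of codimension between `4` and `k + 2` (there is no such condition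
for `k ≤ 1`). Then the points of `E i` and `E' i` have codimension at least `k + 3` for all large `i`,
and `n ≥ 2 k + 5`. -/
theorem result (T : Varieties.{u}) (hT : Facts T) :
    (∀ s : FlipSequence T,
      (∀ F, 2 ≤ T.codim (s.X 0) (T.center (s.X 0) F) → 1 ≤ T.disc (s.X 0) F) →
      (∀ i, ∀ x ∈ s.E i, 2 ≤ T.codim (s.X i) x) →
      (∃ N, ∀ i ≥ N, (∀ x ∈ s.E i, 4 ≤ T.codim (s.X i) x) ∧
        (∀ x ∈ s.E' i, 4 ≤ T.codim (s.X (i + 1)) x)) ∧ 7 ≤ T.n) ∧
    (T.n ≤ 6 → ∀ (s : FlipSequence T) (N : ℕ), ∃ i ≥ N,
      ∃ F, 2 ≤ T.codim (s.X i) (T.center (s.X i) F) ∧ T.disc (s.X i) F < 1 ∧
        ∃ x ∈ s.E i, T.InClosure (s.X i) x (T.center (s.X i) F)) ∧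
    (∀ s : FlipSequence T, ∃ N, ∀ i ≥ N,
      (∀ x ∈ s.E i, 3 ≤ T.codim (s.X i) x ∧ (T.codim (s.X i) x = 3 → T.Regular (s.X i) x)) ∧
      (∀ x ∈ s.E' i, 3 ≤ T.codim (s.X (i + 1)) x ∧
        (T.codim (s.X (i + 1)) x = 3 → T.Regular (s.X (i + 1)) x))) ∧
    (∀ (k : ℕ) (s : FlipSequence T),
      (∃ M, ∀ i ≥ M, Disjoint (s.E i) (Bad T k (s.X i)) ∧
        ∀ x ∈ s.E' i, 4 ≤ T.codim (s.X (i + 1)) x → T.codim (s.X (i + 1)) x ≤ k + 2 →
          T.Regular (s.X (i + 1)) x) →
      (∃ N, ∀ i ≥ N, (∀ x ∈ s.E i, k + 3 ≤ T.codim (s.X i) x) ∧
        (∀ x ∈ s.E' i, k + 3 ≤ T.codim (s.X (i + 1)) x)) ∧ 2 * k + 5 ≤ T.n) :=
  ⟨fun s h hs => gen_three hT s hs h, fun hn s N => gen_four hT s hn N, fun s => gen_one hT s,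
    fun k s => gen_two hT s k⟩

end Pool.Agent.Results.MP_a06248_ag.FlipsOfLowCodimension
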